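import Pool.Agent.Lib.MP_a15413_al.Count

set_option autoImplicit false

namespace Pool.Agent.Results.MP_a15413_al.SameEnds

open SimpleGraph

/-- the restricted wreath product: finitely supported lamp configurations -/
def Wr (F H : Type) [Group F] [Group H] : Subgroup (RegularWreathProduct F H) where
  carrier := {g | (Function.mulSupport g.left).Finite}
  one_mem' := by simp
  mul_mem' {a b} ha hb := (ha.union (hb.preimage (f := fun x => a.right⁻¹ * x)
    (mul_right_injective _).injOn)).subset (Function.mulSupport_mul _ _)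
  inv_mem' {a} ha := (ha.preimage (f := fun x => a.right * x)
    (mul_right_injective _).injOn).subset fun x hx => by simpa using hx

/-- quasi-isometric graphs -/
def QI {X Y : Type} (G : SimpleGraph X) (G' : SimpleGraph Y) : Prop :=
  ∃ (f : X → Y) (K C : ℝ), 1 ≤ K ∧ 0 ≤ C ∧
    (∀ x y, (G.dist x y : ℝ) / K - C ≤ G'.dist (f x) (f y) ∧
      (G'.dist (f x) (f y) : ℝ) ≤ K * G.dist x y + C) ∧ ∀ z, ∃ x, (G'.dist z (f x) : ℝ) ≤ C

/-- the number of ends -/
noncomputable def ends {X : Type} (G : SimpleGraph X) : ℕ∞ :=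
  ⨆ K : Finset X, {C : G.ComponentCompl (K : Set X) | C.supp.Infinite}.encard

open Lib.MP_a15413_al in
theorem result (F₁ F₂ H₁ H₂ : Type) [Group F₁] [Group F₂] [Group H₁] [Group H₂]
    [Finite F₁] [Finite F₂] [Nontrivial F₁] [Nontrivial F₂]
    (S₁ : Finset (Wr F₁ H₁)) (S₂ : Finset (Wr F₂ H₂)) (T₁ : Finset H₁) (T₂ : Finset H₂)
    (hS₁ : Subgroup.closure (S₁ : Set (Wr F₁ H₁)) = ⊤)
    (hS₂ : Subgroup.closure (S₂ : Set (Wr F₂ H₂)) = ⊤)
    (hT₁ : Subgroup.closure (T₁ : Set H₁) = ⊤) (hT₂ : Subgroup.closure (T₂ : Set H₂) = ⊤)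
    (h : QI (mulCayley (S₁ : Set (Wr F₁ H₁))) (mulCayley (S₂ : Set (Wr F₂ H₂)))) :
    ends (mulCayley (T₁ : Set H₁)) = ends (mulCayley (T₂ : Set H₂)) := by
  classical
  have e : ∀ (F H : Type) [Group F] [Group H], Wr F H = LL F H := fun F H _ _ =>
    Subgroup.ext fun g => Iff.trans (by simp [Wr, FS, df, Function.mulSupport, eq_comm])
      (mem_LL g).symm
  revert S₁ S₂
  rw [e, e]
  intro S₁ S₂ hS₁ hS₂ h
  simp only [cay_eq] at h ⊢
  obtain ⟨f, K, C, hK, hC, h1, h2⟩ := h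
  obtain ⟨c₁, m₁⟩ := model hT₁ hS₁
  obtain ⟨c₂, m₂⟩ := model hT₂ hS₂
  have a : C ≤ K * C := le_mul_of_one_le_left hC hK
  rw [ends, ends, sup_ends (cay_nice hT₁), sup_ends (cay_nice hT₂), main_graph (cay_nice hT₁)
    (cay_nice hT₂) (cay_vt T₁) (cay_vt T₂) fs_cls fs_cls (sw_group F₁) (sw_group F₂)
    (m₁.qi m₂ f (K := K) (C := K * C) (by linarith) (by linarith) (fun x y => ⟨(h1 x y).2.trans
      (add_le_add le_rfl a), ?_⟩) fun z => (h2 z).imp fun x hx => hx.trans a)]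
  have := (h1 x y).1
  rwa [sub_le_iff_le_add, div_le_iff₀' (by linarith), mul_add] at this

end Pool.Agent.Results.MP_a15413_al.SameEnds
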